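import Pool.Agent.W714.ES.Sharp

/-!
# The sign of the Euler characteristic of Einstein six-manifolds with a one-sided curvature bound

At a point of a Riemannian six-manifold where the Ricci tensor is `5 κ` times the metric (`κ > 0`) and
all sectional curvatures are at most `k κ` (no lower bound; `k ≥ 5 / 4`), the Gauss-Bonnet-Chern
integrand is at least `(4375 - 12000 k + 11280 k² - 3520 k³) / 135` times its value for constant
curvature `κ`; this is positive for `k ≤ 1.42`, and it is attained for every `k`, by a combination of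
the curvature tensors of the sphere and of complex projective space. The mirrored statement holds for
`Ric = -5 κ` and sectional curvatures at least `-k κ`. So a closed Einstein six-manifold with
`Ric = -5 κ g` and `K ≥ -1.42 κ` has negative Euler characteristic, and one with `Ric = 5 κ g` and
`K ≤ 1.42 κ` has positive Euler characteristic.

The proof (see `Pool/Agent/W714/ES/`, `Pool/Agent/W714/HE/`) uses the formulas and the quadrature on
the sphere of `Pool/Agent/H933R2/Hopf/` (a development of the starting repository): for Einstein tensors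
the integrand is the average over the unit vectors `x` of a combination of `tr J²`, `tr J³` and
`∑ λ_a λ_b K (v_a, v_b)`, where `J` is the Jacobi operator of `x` with eigenvectors `v_a` and
eigenvalues `λ_a`.
-/

namespace Pool.Agent.Results.MP_ebfab8_gt.OneSidedDimSix

open Hopf6 MeasureTheory Pool.Agent.W714.HE Pool.Agent.W714.ES

/-- Einstein curvature tensors in dimension six with a one-sided bound of the sectional curvature. -/
theorem result :
    -- the pointwise bounds
    (∀ (V : Type) [NormedAddCommGroup V] [InnerProductSpace ℝ V]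
      (e : OrthonormalBasis (Fin 6) ℝ V) (R : V → V → V → V → ℝ), AlgCurv R →
      ∀ κ k : ℝ, 0 < κ → 5 / 4 ≤ k →
        (Einstein e R κ → SecLE R (k * κ) →
          (4375 - 12000 * k + 11280 * k ^ 2 - 3520 * k ^ 3) / 135 * roundGB κ ≤ Hopf6.gbc e R) ∧
        (Einstein e R (-κ) → SecGE R (-(k * κ)) →
          Hopf6.gbc e R ≤
            -((4375 - 12000 * k + 11280 * k ^ 2 - 3520 * k ^ 3) / 135 * roundGB κ))) ∧
    -- the constant is positive up to `k = 71 / 50`
    (∀ k : ℝ, k ≤ 71 / 50 → 0 < 4375 - 12000 * k + 11280 * k ^ 2 - 3520 * k ^ 3) ∧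
    -- the bounds are attained
    (∀ κ k : ℝ, 0 < κ → 5 / 4 ≤ k →
      ∃ R : EuclideanSpace ℝ (Fin 6) → EuclideanSpace ℝ (Fin 6) → EuclideanSpace ℝ (Fin 6) →
          EuclideanSpace ℝ (Fin 6) → ℝ,
        AlgCurv R ∧ Einstein (EuclideanSpace.basisFun (Fin 6) ℝ) R κ ∧ SecLE R (k * κ) ∧
        Hopf6.gbc (EuclideanSpace.basisFun (Fin 6) ℝ) R =
          (4375 - 12000 * k + 11280 * k ^ 2 - 3520 * k ^ 3) / 135 * roundGB κ) ∧
    -- the sign of the integral
    (∀ (M : Type) [MeasurableSpace M] (μ : Measure M) (K : CurvField M) (κ : ℝ), μ ≠ 0 → 0 < κ →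
      Integrable K.gbc μ →
        ((∀ p, Einstein (K.e p) (K.R p) κ ∧ SecLE (K.R p) (71 / 50 * κ)) →
          0 < ∫ p, K.gbc p ∂μ) ∧
        ((∀ p, Einstein (K.e p) (K.R p) (-κ) ∧ SecGE (K.R p) (-(71 / 50 * κ))) →
          ∫ p, K.gbc p ∂μ < 0)) := by
  have hpos : ∀ (M : Type) [MeasurableSpace M] (μ : Measure M) (f : M → ℝ), μ ≠ 0 →
      Integrable f μ → (∀ p, 0 < f p) → 0 < ∫ p, f p ∂μ := by
    intro M _ μ f hμ hint h
    have h0 : 0 ≤ f := fun p => (h p).le
    rw [integral_pos_iff_support_of_nonneg h0 hint]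
    have hs : Function.support f = Set.univ := by
      ext p
      simp only [Function.mem_support, Set.mem_univ, iff_true]
      exact (h p).ne'
    rw [hs]
    exact pos_iff_ne_zero.2 (by simpa using hμ)
  have hq : ∀ k : ℝ, k ≤ 71 / 50 → 0 < pol k := by
    intro k hk
    unfold pol
    have h1 : 0 ≤ (71 / 50 - k) * (3520 * (k - 223 / 250) ^ 2 + 200) :=
      mul_nonneg (by linarith) (by positivity)
    nlinarith [h1, sq_nonneg (k - 223 / 250), sq_nonneg (k - 71 / 50)]
  have hc : 0 < pol (71 / 50) := hq _ le_rfl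
  refine ⟨?_, hq, ?_, ?_⟩
  · intro V _ _ e R hR κ k hκ hk
    exact ⟨fun hE h => gbc_pos1 e hk hR hκ hE h, fun hE h => gbc_neg1 e hk hR hκ hE h⟩
  · intro κ k hκ hk
    refine ⟨Rex (k * κ) ((5 * k - 5) * κ), Rex_curv _ _, Rex_Einstein k κ, Rex_sec ?_,
      sharp k κ⟩
    have : 0 ≤ 5 * k - 5 := by linarith
    positivity
  · intro M _ μ K κ hμ hκ hint
    have hr := roundGB_pos hκ
    have hb : 0 < pol (71 / 50) / 135 * roundGB κ := by positivity
    constructor
    · intro h
      refine hpos M μ _ hμ hint fun p => ?_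
      exact lt_of_lt_of_le hb
        (gbc_pos1 (K.e p) (by norm_num) (K.curv p) hκ (h p).1 (h p).2)
    · intro h
      have h1 := hpos M μ (fun p => -(K.gbc p)) hμ hint.neg fun p => by
        have h2 : K.gbc p ≤ -(pol (71 / 50) / 135 * roundGB κ) :=
          gbc_neg1 (K.e p) (by norm_num) (K.curv p) hκ (h p).1 (h p).2
        linarith
      rw [integral_neg] at h1
      linarith

end Pool.Agent.Results.MP_ebfab8_gt.OneSidedDimSix
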